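import Pool.Agent.Helper66_SOR.StmtX

/-! MP_6a3f1a_al, squad ASO, row RTY (helper70), part A: preparations. -/

open scoped BigOperators

noncomputable section

namespace Pool.Agent.PP.SO.H70

open Pool.Agent.Helper51_AWC Pool.Agent.Helper79_WRA Pool.Agent.PP Pool.Agent.PP.KF
open Pool.Agent.PP.K9 Pool.Agent.PP.K9.H97 Pool.Agent.PP.H75 Pool.Agent.PP.T3
open Pool.Agent.PP.SO

section maps

variable {n : ℕ} {V₀ : Type}

/-- the type as a subset of `L2` -/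
def tr2 (s : SS n V₀) : SOR.L2 n (V₀ × V₀) :=
  (Multiplicative.ofAdd ((s.1 : ℕ) : ZMod n), Multiplicative.ofAdd ((s.2.1 : ℕ) : ZMod n), s.2.2)

/-- the type as a subset of `L1` -/
def tr1 (u : Fin n × V₀ × V₀) : SOR.L1 n (V₀ × V₀) :=
  (Multiplicative.ofAdd ((u.1 : ℕ) : ZMod n), u.2)

/-- the `T`-type of an `(a, T)`-type -/
def tT (τ : Set (SS n V₀)) : Set (Fin n × V₀ × V₀) := {u | ∃ s ∈ τ, (s.1 : ℕ) = 0 ∧ s.2 = u}

theorem fin_zero (i : Fin n) : ((i : ℕ) : ZMod n) = 0 ↔ (i : ℕ) = 0 := by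
  rw [ZMod.natCast_eq_zero_iff]
  constructor
  · intro h
    exact Nat.eq_zero_of_dvd_of_lt h i.2
  · intro h
    rw [h]
    exact dvd_zero _

theorem fin_one (hn : 1 < n) (i : Fin n) : ((i : ℕ) : ZMod n) = 1 ↔ (i : ℕ) = 1 := by
  have h1 : (1 : ZMod n) = ((1 : ℕ) : ZMod n) := by rw [Nat.cast_one]
  rw [h1, ZMod.natCast_eq_natCast_iff', Nat.mod_eq_of_lt i.2, Nat.mod_eq_of_lt hn]

theorem exists_fin (hn : 0 < n) (k : ℤ) : ∃ i : Fin n, ((i : ℕ) : ZMod n) = (k : ZMod n) ∧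
    ∀ (G : Type) [Group G] (g : G), g ^ n = 1 → g ^ k = g ^ (i : ℕ) := by
  have hn' : (0 : ℤ) < n := by exact_mod_cast hn
  have h0 : 0 ≤ k % n := Int.emod_nonneg _ hn'.ne'
  have h1 : k % n < n := Int.emod_lt_of_pos _ hn'
  have h2 : ((k % n).toNat : ℤ) = k % n := Int.toNat_of_nonneg h0
  refine ⟨⟨(k % n).toNat, by omega⟩, ?_, ?_⟩
  · change (((k % n).toNat : ℕ) : ZMod n) = (k : ZMod n)
    rw [← Int.cast_natCast, h2, ZMod.intCast_mod]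
  · intro G _ g hg
    change g ^ k = g ^ ((k % n).toNat)
    rw [← zpow_natCast, h2]
    conv_lhs => rw [← Int.emod_add_mul_ediv k n]
    rw [zpow_add, zpow_mul, zpow_natCast g n, hg, one_zpow, mul_one]

end maps

section pe

variable {ℓ n m : ℕ} {G : Type} [Group G] [Finite G]

/-- `x ^ m` is an `ℓ`-element -/
theorem el_pow [Fact ℓ.Prime] (h : PE ℓ n m G) (x : G) : El ℓ (x ^ m) := by
  have hp : ℓ.Prime := Fact.out
  obtain ⟨b, f, hf, hbf⟩ := Nat.exists_eq_pow_mul_and_not_dvd (orderOf_pos x).ne' ℓ hp.ne_one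
  refine ⟨b, ?_⟩
  have h1 : Reg ℓ (x ^ ℓ ^ b) := by
    unfold Reg
    have h2 : orderOf (x ^ ℓ ^ b) ∣ f := by
      rw [orderOf_dvd_iff_pow_eq_one, ← pow_mul, ← hbf]
      exact pow_orderOf_eq_one x
    exact Nat.Coprime.coprime_dvd_left h2 ((Nat.coprime_comm).1 ((hp.coprime_iff_not_dvd).2 hf))
  rw [← pow_mul, mul_comm, pow_mul]
  exact h.rg _ h1

/-- a number `M = 1` modulo `n` with `x ^ M = x ^ m` -/
theorem exists_M [Fact ℓ.Prime] (h : PE ℓ n m G) : ∃ M : ℕ, (M : ZMod n) = 1 ∧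
    (∀ x : G, x ^ M = x ^ m) ∧ ∀ x : G, (x ^ m) ^ n = 1 := by
  have hp : ℓ.Prime := Fact.out
  obtain ⟨r, hr, hn⟩ := h.pw
  have h1 : ∀ k : ℕ, 1 ≤ k → ∀ x : G, x ^ m ^ k = x ^ m := by
    intro k hk
    induction k, hk using Nat.le_induction with
    | base =>
      intro x
      rw [pow_one]
    | succ k hk ih =>
      intro x
      rw [pow_succ, pow_mul, ih x]
      exact (h.el _ (el_pow h x)).1
  refine ⟨m ^ ℓ ^ (r - 1), ?_, ?_, ?_⟩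
  · have h2 : ((ℓ : ℤ)) ∣ (m : ℤ) - 1 := by
      have h3 : (m : ℤ) = (ℓ : ℤ) * ((m / ℓ : ℕ) : ℤ) + ((m % ℓ : ℕ) : ℤ) := by
        exact_mod_cast (Nat.div_add_mod m ℓ).symm
      rw [h3, h.md]
      exact ⟨((m / ℓ : ℕ) : ℤ), by push_cast; ring⟩
    have h3 := dvd_sub_pow_of_dvd_sub h2 (r - 1)
    rw [one_pow, Nat.sub_add_cancel hr] at h3
    have h4 : (((m : ℤ) ^ ℓ ^ (r - 1) - 1 : ℤ) : ZMod n) = 0 := by
      rw [ZMod.intCast_zmod_eq_zero_iff_dvd, hn]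
      exact_mod_cast h3
    push_cast at h4
    push_cast
    exact sub_eq_zero.1 h4
  · exact h1 _ (Nat.one_le_pow _ _ hp.pos)
  · intro x
    exact (h.el _ (el_pow h x)).2

end pe

section uni

variable {V₀ : Type} [CommGroup V₀] {ℓ : ℕ} [Fact ℓ.Prime]

theorem int_mem (z : ℤ) : (z : ℚ) ∈ SOR.Rl ℓ := intCast_mem (SOR.Rl ℓ) z

theorem div_mem_iff (z : ℤ) : (z : ℚ) / ℓ ∈ SOR.Rl ℓ ↔ (z : ZMod ℓ) = 0 := by
  have hp : ℓ.Prime := Fact.out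
  have hp0 : (ℓ : ℚ) ≠ 0 := by exact_mod_cast hp.ne_zero
  rw [ZMod.intCast_zmod_eq_zero_iff_dvd]
  constructor
  · intro h
    have h1 : ¬ ℓ ∣ ((z : ℚ) / ℓ).den := h
    have h2 : ((z : ℚ) / ℓ).den * z = ((z : ℚ) / ℓ).num * ℓ := by
      have h3 := Rat.mul_den_eq_num ((z : ℚ) / ℓ)
      have h4 : (((z : ℚ) / ℓ).den : ℚ) * z = ((z : ℚ) / ℓ).num * ℓ := by
        rw [← h3]
        field_simp
      exact_mod_cast h4
    have h5 : (ℓ : ℤ) ∣ ((z : ℚ) / ℓ).den * z := by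
      rw [h2]
      exact dvd_mul_left _ _
    have hp' : Prime (ℓ : ℤ) := Nat.prime_iff_prime_int.1 hp
    rcases hp'.dvd_or_dvd h5 with h6 | h6
    · exact absurd (by exact_mod_cast h6) h1
    · exact h6
  · rintro ⟨w, hw⟩
    have h1 : (z : ℚ) / ℓ = (w : ℤ) := by
      rw [hw]
      push_cast
      field_simp
    rw [h1]
    exact int_mem w

variable {ρ : V₀ → ZMod ℓ} {x : V₀ → ℤ}

theorem lf_add (hρ : Hm ρ) (hx : Lf ρ x) (v w : V₀) :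
    (x (v * w) : ℚ) / ℓ - x v / ℓ - x w / ℓ ∈ SOR.Rl ℓ := by
  have h1 : (x (v * w) : ℚ) / ℓ - x v / ℓ - x w / ℓ =
      ((x (v * w) - x v - x w : ℤ) : ℚ) / ℓ := by
    push_cast
    ring
  rw [h1, div_mem_iff]
  push_cast
  rw [(hx _).1, (hx _).1, (hx _).1, hρ]
  ring

theorem lf_pow {r : ℕ} (hr : 0 < r) (v : V₀) : (ℓ : ℚ) ^ r * ((x v : ℚ) / ℓ) ∈ SOR.Rl ℓ := by
  have hp : ℓ.Prime := Fact.out
  have hp0 : (ℓ : ℚ) ≠ 0 := by exact_mod_cast hp.ne_zero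
  have h1 : (ℓ : ℚ) ^ r * ((x v : ℚ) / ℓ) = (((ℓ : ℤ) ^ (r - 1) * x v : ℤ) : ℚ) := by
    obtain ⟨k, rfl⟩ : ∃ k, r = k + 1 := ⟨r - 1, by omega⟩
    rw [Nat.add_sub_cancel]
    push_cast
    rw [pow_succ]
    field_simp
  rw [h1]
  exact int_mem _

theorem lf_mem (hx : Lf ρ x) (v : V₀) : (x v : ℚ) / ℓ ∈ SOR.Rl ℓ ↔ ρ v = 0 := by
  rw [div_mem_iff, (hx v).1]

theorem lf_zero (hx : Lf ρ x) (v : V₀) (h : (x v : ℚ) / ℓ ∈ SOR.Rl ℓ) : (x v : ℚ) / ℓ = 0 := by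
  rw [lf_mem hx] at h
  rw [(hx v).2 h]
  simp

end uni

end Pool.Agent.PP.SO.H70
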