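import Pool.Agent.Helper66_SOR.StmtX
import Pool.Agent.ASO.Stmts2

/-! MP_6a3f1a_al, squad ASO, row RTX (helper70): a corollary of RTY. -/

open scoped BigOperators

noncomputable section

namespace Pool.Agent.PP.SO.H70

open Pool.Agent.Helper51_AWC Pool.Agent.Helper79_WRA Pool.Agent.PP Pool.Agent.PP.KF
open Pool.Agent.PP.K9 Pool.Agent.PP.K9.H97 Pool.Agent.PP.H75 Pool.Agent.PP.T3
open Pool.Agent.PP.SO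

theorem hm_one {V₀ : Type} [CommGroup V₀] {ℓ : ℕ} {ρ : V₀ → ZMod ℓ} (h : Hm ρ) : ρ 1 = 0 := by
  have h1 := h 1 1
  rw [mul_one] at h1
  have h2 : ρ 1 + 0 = ρ 1 + ρ 1 := by rw [add_zero]; exact h1
  exact (add_left_cancel h2).symm

theorem hm_inv {V₀ : Type} [CommGroup V₀] {ℓ : ℕ} {ρ : V₀ → ZMod ℓ} (h : Hm ρ) (v : V₀) :
    ρ v⁻¹ = -ρ v := by
  have h1 := h v⁻¹ v
  rw [inv_mul_cancel, hm_one h] at h1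
  exact eq_neg_of_add_eq_zero_left h1.symm

open Classical in
/-- the lift with a given value at `c⁻¹` -/
def lft {V₀ : Type} [CommGroup V₀] {ℓ : ℕ} (ρ : V₀ → ZMod ℓ) (c : V₀) (r : ℤ) (v : V₀) : ℤ :=
  if v = c⁻¹ then r else ((ρ v).val : ℤ)

theorem lft_lf {V₀ : Type} [CommGroup V₀] {ℓ : ℕ} [Fact ℓ.Prime] {ρ : V₀ → ZMod ℓ} (h : Hm ρ)
    (c : V₀) (r : ℤ) (h1 : (r : ZMod ℓ) = -ρ c) (h2 : ρ c = 0 → r = 0) : Lf ρ (lft ρ c r) := by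
  intro v
  unfold lft
  by_cases hv : v = c⁻¹
  · rw [if_pos hv, hv, hm_inv h]
    exact ⟨h1, fun h3 => h2 (neg_eq_zero.1 h3)⟩
  · rw [if_neg hv]
    constructor
    · rw [Int.cast_natCast, ZMod.natCast_zmod_val]
    · intro h3
      rw [h3, ZMod.val_zero, Nat.cast_zero]

theorem rtx (hR : RtyStmt) : RtxStmt := by
  intro ℓ _ V₀ _ _ hexp n ρ₁ ρ₂ hn hρ₁ hρ₂ c d r₁ r₂ hr₁ hr₂ hr₁' hr₂'
  obtain ⟨F₁₃, F₁₂, K, hFX, hrel⟩ := hR ℓ V₀ hexp n ρ₁ ρ₂ hn hρ₁ hρ₂ (lft ρ₁ c r₁) (lft ρ₂ d r₂)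
    (lft_lf hρ₁ c r₁ hr₁ hr₁') (lft_lf hρ₂ d r₂ hr₂ hr₂') c d
  have hn1 : 1 < n := by
    obtain ⟨r, hr, rfl⟩ := hn
    exact Nat.one_lt_pow hr.ne' (Fact.out : ℓ.Prime).one_lt
  have hc1 : lft ρ₁ c r₁ c⁻¹ = r₁ := if_pos rfl
  have hd1 : lft ρ₂ d r₂ d⁻¹ = r₂ := if_pos rfl
  refine ⟨F₁₃, F₁₂, ⟨?_, ?_, ?_⟩, hrel⟩
  · intro τ h
    refine hFX.z13 τ ?_
    rcases h with h | h
    · left
      intro s hs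
      rw [h s hs, hm_one hρ₁]
    · right
      intro s hs
      rw [h s hs, hm_one hρ₂]
  · intro τ h
    have h1 := hFX.z12 τ (fun s hs _ _ => h s hs) (fun s hs => by
      rw [(h s hs).1, (h s hs).2, hm_one hρ₁, hm_one hρ₂]
      exact ⟨rfl, rfl⟩)
    rw [h1, hc1, hd1]
    push_cast
    rfl
  · intro κ₁ κ₂ I hI hκ₁ hκ₂
    obtain ⟨i₀, hi₀, hi0⟩ := hI
    have h1 := hFX.prod {s | s.1 ∈ I ∧ s.2.2.1 = κ₁ ^ (s.2.1 : ℕ) ∧ s.2.2.2 = κ₂ ^ (s.2.1 : ℕ)}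
      (by
        rintro s ⟨_, h2, h3⟩ _ h5
        rw [h2, h3, h5, pow_zero, pow_zero]
        exact ⟨rfl, rfl⟩)
      (by
        rintro s ⟨_, h2, h3⟩
        exact ⟨(i₀, s.2), ⟨hi₀, h2, h3⟩, hi0, rfl⟩)
      (by
        rintro s ⟨_, h2, h3⟩ h5
        rw [h2, h3, h5, pow_zero, pow_zero, hm_one hρ₁, hm_one hρ₂]
        exact ⟨rfl, rfl⟩)
    have h2 := hFX.K1 {u | ∃ s ∈ ({s | s.1 ∈ I ∧ s.2.2.1 = κ₁ ^ (s.2.1 : ℕ) ∧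
      s.2.2.2 = κ₂ ^ (s.2.1 : ℕ)} : Set (SS n V₀)), s.2 = u} κ₁ κ₂
      (by
        refine ⟨(⟨1, hn1⟩, κ₁, κ₂), ⟨(i₀, ⟨1, hn1⟩, κ₁, κ₂), ⟨hi₀, ?_, ?_⟩, rfl⟩, rfl⟩
        · change κ₁ = κ₁ ^ 1
          rw [pow_one]
        · change κ₂ = κ₂ ^ 1
          rw [pow_one])
      (by
        rintro u ⟨s, ⟨_, h3, h4⟩, rfl⟩ h5
        rw [h5, pow_one] at h3 h4
        exact Prod.ext h3 h4)
    have e1 : lft ρ₁ c r₁ κ₁ = ((ρ₁ κ₁).val : ℤ) := if_neg hκ₁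
    have e2 : lft ρ₂ d r₂ κ₂ = ((ρ₂ κ₂).val : ℤ) := if_neg hκ₂
    rw [h1, h2, hc1, hd1, e1, e2]
    push_cast
    ring

end Pool.Agent.PP.SO.H70
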