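import Pool.Agent.Helper70_ASO.RTYB

/-! MP_6a3f1a_al, squad ASO, row RTY (helper70): the relation for the triples. -/

open scoped BigOperators

noncomputable section

namespace Pool.Agent.PP.SO.H70

open Pool.Agent.Helper51_AWC Pool.Agent.Helper79_WRA Pool.Agent.PP Pool.Agent.PP.KF
open Pool.Agent.PP.K9 Pool.Agent.PP.K9.H97 Pool.Agent.PP.H75 Pool.Agent.PP.T3
open Pool.Agent.PP.SO

theorem rty (hUni : SOR.UniStmt) (hBrx : SOR.BrxStmt) : RtyStmt := by
  classical
  intro ℓ _ V₀ _ _ hexp n ρ₁ ρ₂ hn hρ₁ hρ₂ x₁ x₂ hx₁ hx₂ c d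
  obtain ⟨r, hr, hnr⟩ := hn
  have hp : ℓ.Prime := Fact.out
  have hp0 : (ℓ : ℚ) ≠ 0 := by exact_mod_cast hp.ne_zero
  have hn1 : 1 < n := by
    rw [hnr]
    exact Nat.one_lt_pow hr.ne' hp.one_lt
  have hpg : IsPGroup ℓ (V₀ × V₀) := fun v => ⟨1, by
    rw [pow_one]
    exact Prod.ext (hexp _) (hexp _)⟩
  have hU := hUni ℓ r (V₀ × V₀) hpg
    (fun p => (x₁ p.1 : ℚ) / ℓ) (fun p => (x₂ p.2 : ℚ) / ℓ) (c⁻¹, d⁻¹)
    (fun p p' => lf_add hρ₁ hx₁ _ _) (fun p p' => lf_add hρ₂ hx₂ _ _)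
    (fun p => lf_pow hr _) (fun p => lf_pow hr _) (fun p h => lf_zero hx₁ _ h)
    (fun p h => lf_zero hx₂ _ h)
  rw [← hnr] at hU
  obtain ⟨Φ, Ψ, K', hΦ1, hΦ2, hΨ1, hΨ2, hK1, hK2, hK3, hrel⟩ := hU
  have hz : ∀ v, ρ₁ v = 0 → (x₁ v : ℚ) / ℓ ∈ SOR.Rl ℓ := fun v h => (lf_mem hx₁ v).2 h
  have hz' : ∀ v, ρ₂ v = 0 → (x₂ v : ℚ) / ℓ ∈ SOR.Rl ℓ := fun v h => (lf_mem hx₂ v).2 h
  refine ⟨fun τ => if Fre τ then -12 * Φ (tr2 '' τ) else 0,
    fun τ => if Fre τ then (x₁ c⁻¹ * x₂ d⁻¹ : ℤ) / (ℓ : ℚ) ^ 2 - K' (tr1 '' (tT τ)) -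
      12 * Ψ (tr2 '' τ) else 0,
    fun U => K' (tr1 '' U), ?_, ?_⟩
  · refine ⟨?_, ?_, ?_, ?_, ?_, ?_⟩
    · intro τ h
      exact ⟨if_neg h, if_neg h⟩
    · intro τ h
      change (if Fre τ then -12 * Φ (tr2 '' τ) else 0) = 0
      have h1 : Φ (tr2 '' τ) = 0 := by
        rcases h with h | h
        · refine hΦ1 _ ?_
          rintro _ ⟨s, hs, rfl⟩
          exact hz _ (h s hs)
        · refine hΦ2 _ ?_
          rintro _ ⟨s, hs, rfl⟩
          exact hz' _ (h s hs)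
      rw [h1, mul_zero, ite_self]
    · intro τ hf h
      change (if Fre τ then (x₁ c⁻¹ * x₂ d⁻¹ : ℤ) / (ℓ : ℚ) ^ 2 - K' (tr1 '' (tT τ)) -
        12 * Ψ (tr2 '' τ) else 0) = _
      have h1 : Ψ (tr2 '' τ) = 0 := by
        refine hΨ1 _ ?_ ?_
        · rintro _ ⟨s, hs, rfl⟩
          exact hz _ (h s hs).1
        · rintro _ ⟨s, hs, rfl⟩
          exact hz' _ (h s hs).2
      have h2 : K' (tr1 '' (tT τ)) = 0 := by
        refine hK1 _ ?_
        rintro _ ⟨u, ⟨s, hs, _, rfl⟩, rfl⟩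
        exact hz _ (h s hs).1
      rw [if_pos hf, h1, h2]
      ring
    · intro τ hf h1 h2
      change (if Fre τ then (x₁ c⁻¹ * x₂ d⁻¹ : ℤ) / (ℓ : ℚ) ^ 2 - K' (tr1 '' (tT τ)) -
        12 * Ψ (tr2 '' τ) else 0) = _
      have h3 : Ψ (tr2 '' τ) = 0 := by
        refine hΨ2 _ ?_ ?_
        · rintro _ ⟨s, hs, rfl⟩
          obtain ⟨s', hs', h0, he⟩ := h1 s hs
          refine ⟨s', hs', ?_⟩
          unfold tr2
          rw [h0, he, Nat.cast_zero]
          rfl
        · rintro _ ⟨s, hs, rfl⟩ h0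
          have h4 : ((s.2.1 : ℕ) : ZMod n) = 0 := Multiplicative.ofAdd.injective h0
          have h5 := h2 s hs ((fin_zero _).1 h4)
          exact ⟨hz _ h5.1, hz' _ h5.2⟩
      have h4 : tT τ = {u | ∃ s ∈ τ, s.2 = u} := by
        ext u
        constructor
        · rintro ⟨s, hs, _, he⟩
          exact ⟨s, hs, he⟩
        · rintro ⟨s, hs, he⟩
          obtain ⟨s', hs', h0, he'⟩ := h1 s hs
          exact ⟨s', hs', h0, by rw [he', he]⟩
      rw [if_pos hf, h3, h4]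
      ring
    · intro U h
      change K' (tr1 '' U) = 0
      rcases h with h | h
      · refine hK1 _ ?_
        rintro _ ⟨u, hu, rfl⟩
        exact hz _ (h u hu)
      · refine hK2 _ ?_
        rintro _ ⟨u, hu, rfl⟩
        exact hz' _ (h u hu)
    · intro U κ₁ κ₂ h1 h2
      change K' (tr1 '' U) = _
      rw [hK3 (tr1 '' U) (κ₁, κ₂) ?_]
      · push_cast
        field_simp
      · intro p'
        constructor
        · rintro ⟨u, hu, he⟩
          have h3 := Prod.ext_iff.1 he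
          have h4 : ((u.1 : ℕ) : ZMod n) = 1 := Multiplicative.ofAdd.injective h3.1
          have h5 := h2 u hu ((fin_one hn1 _).1 h4)
          have h6 : u.2 = p' := h3.2
          rw [← h6, h5]
        · rintro rfl
          obtain ⟨u, hu, hu1⟩ := h1
          refine ⟨u, hu, ?_⟩
          unfold tr1
          rw [h2 u hu hu1, (fin_one hn1 _).2 hu1]
  · intro G _ _ m ι hι hPE P Q hc hd s t hs ht hPs hQt
    obtain ⟨D, _, _, _, _, hTs, ha, ha3, hT, hV⟩ := hBrx G (ι c * s) (ι d * t)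
    have hn0 : 0 < n := by omega
    obtain ⟨M, hM1, hM, hMn⟩ := exists_M hPE
    -- centralisers
    have hcomm : ∀ v w : V₀, ι v * ι w = ι w * ι v := fun v w => by
      rw [← map_mul, ← map_mul, mul_comm]
    have hP1 : ∀ p ∈ P, ι p ∈ Subgroup.centralizer ({ι c * s} : Set G) := by
      intro p hp
      rw [Subgroup.mem_centralizer_iff]
      intro h hh
      rw [Set.mem_singleton_iff] at hh
      rw [hh, mul_assoc, ← hPs p hp, ← mul_assoc, hcomm c p, mul_assoc]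
    have hQ1 : ∀ p ∈ Q, ι p ∈ Subgroup.centralizer ({ι d * t} : Set G) := by
      intro p hp
      rw [Subgroup.mem_centralizer_iff]
      intro h hh
      rw [Set.mem_singleton_iff] at hh
      rw [hh, mul_assoc, ← hQt p hp, ← mul_assoc, hcomm d p, mul_assoc]
    have hs1 : s⁻¹ ∈ Subgroup.centralizer ({ι c * s} : Set G) := by
      refine Subgroup.inv_mem _ ?_
      rw [Subgroup.mem_centralizer_iff]
      intro h hh
      rw [Set.mem_singleton_iff] at hh
      rw [hh, ← mul_assoc, ← hPs c hc]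
    have ht1 : t⁻¹ ∈ Subgroup.centralizer ({ι d * t} : Set G) := by
      refine Subgroup.inv_mem _ ?_
      rw [Subgroup.mem_centralizer_iff]
      intro h hh
      rw [Set.mem_singleton_iff] at hh
      rw [hh, ← mul_assoc, ← hQt d hd]
    obtain ⟨q', hq', hqa, hqb, hqA, hqB, hqT⟩ :=
      hV (Subgroup.centralizer ({ι c * s} : Set G)) (Subgroup.centralizer ({ι d * t} : Set G))
        (fun v hv => (Subgroup.mem_centralizer_iff.1 hv _ rfl).symm)
        (fun v hv => (Subgroup.mem_centralizer_iff.1 hv _ rfl).symm)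
    obtain ⟨θ, hθ⟩ : ∃ θ : P.prod Q →* (Subgroup.centralizer ({ι c * s} : Set G)) ×
        (Subgroup.centralizer ({ι d * t} : Set G)),
        ∀ p, θ p = (⟨ι p.1.1, hP1 _ p.2.1⟩, ⟨ι p.1.2, hQ1 _ p.2.2⟩) :=
      ⟨{ toFun := fun p => (⟨ι p.1.1, hP1 _ p.2.1⟩, ⟨ι p.1.2, hQ1 _ p.2.2⟩)
         map_one' := by
          refine Prod.ext (Subtype.ext ?_) (Subtype.ext ?_)
          · exact map_one ι
          · exact map_one ι
         map_mul' := fun a b => by
          refine Prod.ext (Subtype.ext ?_) (Subtype.ext ?_)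
          · exact map_mul ι _ _
          · exact map_mul ι _ _ }, fun p => rfl⟩
    obtain ⟨σ, hσ⟩ : ∃ σ : Equiv.Perm (SOR.Tr G (ι c * s) (ι d * t)),
      σ = q' (⟨s⁻¹, hs1⟩, ⟨t⁻¹, ht1⟩) := ⟨_, rfl⟩
    have hq : ∀ (p : P.prod Q) z, ((q'.comp θ) p z).1 = (ι p.1.1 * z.1.1 * (ι p.1.1)⁻¹,
        ι p.1.1 * z.1.2.1 * (ι p.1.1)⁻¹, ι p.1.1 * z.1.2.2 * (ι p.1.2)⁻¹) := by
      intro p z
      rw [MonoidHom.comp_apply, hq', hθ]
    have hmem : ∀ g : Equiv.Perm (SOR.Tr G (ι c * s) (ι d * t)),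
        (∀ p z, g (q' p z) = q' p (g z)) →
        g ∈ Subgroup.centralizer (Set.range q' : Set (Equiv.Perm _)) := by
      intro g hg
      rw [Subgroup.mem_centralizer_iff]
      rintro _ ⟨p, rfl⟩
      refine Equiv.ext fun z => ?_
      exact (hg p z).symm
    obtain ⟨D', hD'⟩ : ∃ D' : SOR.Bd (Subgroup.centralizer (Set.range q' : Set (Equiv.Perm _))),
        D' = rst D _ (hmem _ hqa) (hmem _ hqb) (hmem _ hqA) (hmem _ hqB) (hmem _ hqT) :=
      ⟨_, rfl⟩
    obtain ⟨i, hi⟩ : ∃ i : Subgroup.centralizer (Set.range q' : Set (Equiv.Perm _)) →*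
        Equiv.Perm (SOR.Tr G (ι c * s) (ι d * t)), i = Subgroup.subtype _ := ⟨_, rfl⟩
    have hia : i D'.a = D.a := by rw [hi, hD']; rfl
    have hia3 : i D'.a3 = D.a3 := by
      rw [hi, hD']
      rfl
    have hiT : i D'.T = D.T := by
      rw [hi, hD']
      unfold SOR.Bd.T
      rw [map_pow, map_mul]
      rfl
    have hiTs : i D'.Ts = D.Ts := by rw [hi, hD']; rfl
    have hicomm : ∀ g v x, i g (q' v x) = q' v (i g x) := by
      intro g v x
      have h1 := Subgroup.mem_centralizer_iff.1 g.2 (q' v) ⟨v, rfl⟩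
      have h2 := Equiv.ext_iff.1 h1 x
      rw [hi]
      exact h2.symm
    have hXa : SOR.Xa ℓ D' (P.prod Q) ⟨(c⁻¹, d⁻¹), ⟨P.inv_mem hc, Q.inv_mem hd⟩⟩ i
        (q'.comp θ) σ := by
      refine ⟨?_, ?_, ?_, ?_, ?_⟩
      · intro g p x
        exact hicomm g (θ p) x
      · intro g x
        rw [hσ]
        exact hicomm g _ x
      · intro p x
        rw [hσ, MonoidHom.comp_apply, ← Equiv.Perm.mul_apply, ← Equiv.Perm.mul_apply, ← map_mul,
          ← map_mul]
        congr 2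
        rw [hθ]
        have e1 : Commute (ι p.1.1) s⁻¹ := Commute.inv_right (hPs _ p.2.1)
        have e2 : Commute (ι p.1.2) t⁻¹ := Commute.inv_right (hQt _ p.2.2)
        refine Prod.ext (Subtype.ext ?_) (Subtype.ext ?_)
        · exact e1
        · exact e2
      · have h1 : orderOf σ ∣ orderOf s * orderOf t := by
          rw [orderOf_dvd_iff_pow_eq_one, hσ, ← map_pow]
          have h2 : ((⟨s⁻¹, hs1⟩, ⟨t⁻¹, ht1⟩) : (Subgroup.centralizer ({ι c * s} : Set G)) ×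
              (Subgroup.centralizer ({ι d * t} : Set G))) ^ (orderOf s * orderOf t) = 1 := by
            refine Prod.ext (Subtype.ext ?_) (Subtype.ext ?_)
            · change (s⁻¹) ^ (orderOf s * orderOf t) = 1
              rw [inv_pow, pow_mul, pow_orderOf_eq_one, one_pow, inv_one]
            · change (t⁻¹) ^ (orderOf s * orderOf t) = 1
              rw [inv_pow, mul_comm, pow_mul, pow_orderOf_eq_one, one_pow, inv_one]
          rw [h2, map_one]
        exact Nat.Coprime.coprime_dvd_left h1 (Nat.Coprime.mul_left hs ht)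
      · rw [hiTs, hσ]
        refine Equiv.ext fun z => Subtype.ext ?_
        rw [hTs, Equiv.Perm.mul_apply, hq, hq']
        have e1 : ι c * s = s * ι c := hPs c hc
        have e2 : ι d * t = t * ι d := hQt d hd
        have e3 : ι c⁻¹ = (ι c)⁻¹ := map_inv ι c
        have e4 : ι d⁻¹ = (ι d)⁻¹ := map_inv ι d
        simp only [e1, e2, e3, e4]
        refine Prod.ext ?_ (Prod.ext ?_ ?_)
        · simp only
          group
        · simp only
          group
        · simp only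
          group
    have hone : ∀ (x : G) (k : ℤ), x ^ ((M : ℤ) * ((n : ℤ) * k)) = 1 := by
      intro x k
      rw [zpow_mul, zpow_natCast, hM, zpow_mul, zpow_natCast, hMn, one_zpow]
    have h1a : i ((D'.a ^ M) ^ n) = 1 := by
      rw [map_pow, map_pow, hia]
      refine Equiv.ext fun z => Subtype.ext ?_
      have e : (D.a ^ M) ^ n = D.a ^ ((M : ℤ) * ((n : ℤ) * 1)) := by
        rw [mul_one, zpow_mul, zpow_natCast, zpow_natCast]
      rw [e, ha, hone, mul_one]
      rfl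
    have h1a3 : i ((D'.a3 ^ M) ^ n) = 1 := by
      rw [map_pow, map_pow, hia3]
      refine Equiv.ext fun z => Subtype.ext ?_
      have e : (D.a3 ^ M) ^ n = D.a3 ^ ((M : ℤ) * ((n : ℤ) * 1)) := by
        rw [mul_one, zpow_mul, zpow_natCast, zpow_natCast]
      rw [e, ha3, hone, one_mul, one_mul]
      rfl
    have h1T : i ((D'.T ^ M) ^ n) = 1 := by
      rw [map_pow, map_pow, hiT]
      refine Equiv.ext fun z => Subtype.ext ?_
      have e : (D.T ^ M) ^ n = D.T ^ ((M : ℤ) * ((n : ℤ) * 1)) := by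
        rw [mul_one, zpow_mul, zpow_natCast, zpow_natCast]
      have e2 : -((M : ℤ) * ((n : ℤ) * 1)) = (M : ℤ) * ((n : ℤ) * (-1)) := by ring
      rw [e, hT, e2, hone, hone, one_mul, one_mul, mul_one, mul_one]
      rfl
    haveI hfin : Finite (SOR.Tr G (ι c * s) (ι d * t)) :=
      Finite.of_injective (fun z => z.1) Subtype.val_injective
    haveI : Fintype (SOR.Tr G (ι c * s) (ι d * t)) := Fintype.ofFinite _
    haveI hfin' : Finite (XX (ι c * s) (ι d * t)) :=
      Finite.of_equiv _ (eX (ι c * s) (ι d * t)).symm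
    haveI : Fintype (XX (ι c * s) (ι d * t)) := Fintype.ofFinite _
    have hR := hrel (Subgroup.centralizer (Set.range q' : Set (Equiv.Perm _)))
      (SOR.Tr G (ι c * s) (ι d * t)) D' (P.prod Q) ⟨(c⁻¹, d⁻¹), ⟨P.inv_mem hc, Q.inv_mem hd⟩⟩ rfl i
      (q'.comp θ) σ hXa M hM1 h1a h1a3 h1T
    refine ⟨_, hR, ?_⟩
    have hcard : (Nat.card (P.prod Q) : ℚ) = Nat.card P * Nat.card Q := by
      rw [Nat.card_congr (Subgroup.prodEquiv P Q).toEquiv, Nat.card_prod]
      push_cast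
      ring
    have hcard0 : (Nat.card (P.prod Q) : ℚ) ≠ 0 := by
      exact_mod_cast Nat.card_pos.ne'
    rw [← hcard, mul_div_cancel₀ _ hcard0, finsum_eq_sum_of_fintype, Finset.sum_filter]
    refine Fintype.sum_equiv (eX (ι c * s) (ι d * t)) _ _ ?_
    intro w
    obtain ⟨z, hz⟩ : ∃ z, z = eX (ι c * s) (ι d * t) w := ⟨_, rfl⟩
    have hzw : z.1 = w.1 := by rw [hz]; rfl
    rw [← hz, ← hzw]
    have i13 := img13 (P := P) (Q := Q) hn0 hq hia hia3 ha ha3 hM hMn z
    have i12 := img12 (P := P) (Q := Q) hn0 hq hia hiT ha hT hM hMn z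
    have iT := imgT (P := P) (Q := Q) hn0 hq hia hiT ha hT hM hMn z
    have f13 := free13 (P := P) (Q := Q) (m := m) hn0 hq z
    have f12 := free12 (P := P) (Q := Q) (m := m) hn0 hq z
    change (if Fre (t13 n m ι P Q (ι c * s) z.1.1 z.1.2.1 z.1.2.2) then
        -12 * Φ (tr2 '' (t13 n m ι P Q (ι c * s) z.1.1 z.1.2.1 z.1.2.2)) else 0) +
      (if Fre (t12 n m ι P Q z.1.1 z.1.2.1 z.1.2.2) then
        (x₁ c⁻¹ * x₂ d⁻¹ : ℤ) / (ℓ : ℚ) ^ 2 -
          K' (tr1 '' (tT (t12 n m ι P Q z.1.1 z.1.2.1 z.1.2.2))) -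
          12 * Ψ (tr2 '' (t12 n m ι P Q z.1.1 z.1.2.1 z.1.2.2)) else 0) = _
    rw [i13, i12, iT]
    by_cases hg : z ∈ SOR.Gd (q'.comp θ)
    · rw [if_pos (f13.2 hg), if_pos (f12.2 hg), if_pos hg]
      push_cast
      field_simp
      ring
    · rw [if_neg (fun h => hg (f13.1 h)), if_neg (fun h => hg (f12.1 h)), if_neg hg, add_zero]

end Pool.Agent.PP.SO.H70
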