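import Pool.Agent.Helper70_ASO.RTYA

/-! MP_6a3f1a_al, squad ASO, row RTY (helper70), part B: the types of the triples. -/

open scoped BigOperators

noncomputable section

namespace Pool.Agent.PP.SO.H70

open Pool.Agent.Helper51_AWC Pool.Agent.Helper79_WRA Pool.Agent.PP Pool.Agent.PP.KF
open Pool.Agent.PP.K9 Pool.Agent.PP.K9.H97 Pool.Agent.PP.H75 Pool.Agent.PP.T3
open Pool.Agent.PP.SO

/-- restriction of the data to a subgroup -/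
def rst {Γ : Type} [Group Γ] (D : SOR.Bd Γ) (H : Subgroup Γ) (ha : D.a ∈ H) (hb : D.b ∈ H)
    (hA : D.A ∈ H) (hB : D.B ∈ H) (hT : D.Ts ∈ H) : SOR.Bd H where
  a := ⟨D.a, ha⟩
  b := ⟨D.b, hb⟩
  A := ⟨D.A, hA⟩
  B := ⟨D.B, hB⟩
  Ts := ⟨D.Ts, hT⟩
  r1 := Subtype.ext D.r1
  r2 := Subtype.ext D.r2
  r3 := Subtype.ext D.r3
  r4 := Subtype.ext D.r4
  r5 := Subtype.ext D.r5
  r6 := Subtype.ext D.r6
  r7 := Subtype.ext D.r7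
  r8 := Subtype.ext D.r8
  r9 := Subtype.ext D.r9
  r10 := Subtype.ext D.r10

/-- the two forms of the set of triples -/
def eX {G : Type} [Group G] (g h : G) : XX g h ≃ SOR.Tr G g h where
  toFun w := ⟨w.1, by
    have h1 := w.2
    rw [h1]
    group⟩
  invFun z := ⟨z.1, by
    have h1 := z.2
    rw [h1]
    group⟩
  left_inv w := rfl
  right_inv z := rfl

section form

variable {G : Type} [Group G] {g₁ g₂ : G} {V₀ : Type} [CommGroup V₀]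
  {D : SOR.Bd (Equiv.Perm (SOR.Tr G g₁ g₂))} {m n M : ℕ}

theorem form13 (ha : ∀ z (k : ℤ), ((D.a ^ k) z).1 = (z.1.1, z.1.2.1 * z.1.1 ^ k, z.1.2.2))
    (ha3 : ∀ z (k : ℤ), ((D.a3 ^ k) z).1 =
      (z.1.1, (g₁⁻¹ * z.1.1) ^ k * z.1.2.1, (g₁⁻¹ * z.1.1) ^ k * z.1.2.2))
    (hM : ∀ x : G, x ^ M = x ^ m) (k l : ℤ) (z : SOR.Tr G g₁ g₂) :
    (((D.a ^ M) ^ k * (D.a3 ^ M) ^ l) z).1 =
      (z.1.1, ((g₁⁻¹ * z.1.1) ^ m) ^ l * z.1.2.1 * (z.1.1 ^ m) ^ k,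
        ((g₁⁻¹ * z.1.1) ^ m) ^ l * z.1.2.2) := by
  have e1 : (D.a ^ M) ^ k = D.a ^ ((M : ℤ) * k) := by rw [zpow_mul, zpow_natCast]
  have e2 : (D.a3 ^ M) ^ l = D.a3 ^ ((M : ℤ) * l) := by rw [zpow_mul, zpow_natCast]
  have e3 : ∀ (x : G) (k : ℤ), x ^ ((M : ℤ) * k) = (x ^ m) ^ k := fun x k => by
    rw [zpow_mul, zpow_natCast, hM]
  rw [Equiv.Perm.mul_apply, e1, ha, e2, ha3, e3, e3]

theorem form12 (ha : ∀ z (k : ℤ), ((D.a ^ k) z).1 = (z.1.1, z.1.2.1 * z.1.1 ^ k, z.1.2.2))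
    (hT : ∀ z (k : ℤ), ((D.T ^ k) z).1 = ((z.1.1 * z.1.2.1 * z.1.1⁻¹ * z.1.2.1⁻¹) ^ (-k) * z.1.1 *
        (z.1.1 * z.1.2.1 * z.1.1⁻¹ * z.1.2.1⁻¹) ^ k,
      (z.1.1 * z.1.2.1 * z.1.1⁻¹ * z.1.2.1⁻¹) ^ (-k) * z.1.2.1 *
        (z.1.1 * z.1.2.1 * z.1.1⁻¹ * z.1.2.1⁻¹) ^ k, z.1.2.2))
    (hM : ∀ x : G, x ^ M = x ^ m) (k l : ℤ) (z : SOR.Tr G g₁ g₂) :
    (((D.a ^ M) ^ k * (D.T ^ M) ^ l) z).1 =
      (((kap z.1.1 z.1.2.1 ^ m) ^ l)⁻¹ * z.1.1 * (kap z.1.1 z.1.2.1 ^ m) ^ l,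
        ((kap z.1.1 z.1.2.1 ^ m) ^ l)⁻¹ * (z.1.2.1 * (z.1.1 ^ m) ^ k) *
          (kap z.1.1 z.1.2.1 ^ m) ^ l, z.1.2.2) := by
  have e1 : (D.a ^ M) ^ k = D.a ^ ((M : ℤ) * k) := by rw [zpow_mul, zpow_natCast]
  have e2 : (D.T ^ M) ^ l = D.T ^ ((M : ℤ) * l) := by rw [zpow_mul, zpow_natCast]
  have e3 : ∀ (x : G) (k : ℤ), x ^ ((M : ℤ) * k) = (x ^ m) ^ k := fun x k => by
    rw [zpow_mul, zpow_natCast, hM]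
  have e4 : ∀ (x : G) (k : ℤ), x ^ (-((M : ℤ) * k)) = ((x ^ m) ^ k)⁻¹ := fun x k => by
    rw [zpow_neg, e3]
  rw [Equiv.Perm.mul_apply, e1, ha, e2, hT]
  simp only [e3, e4]
  have e5 : z.1.1 * z.1.2.1 * z.1.1⁻¹ * z.1.2.1⁻¹ = kap z.1.1 z.1.2.1 := rfl
  rw [e5]
  generalize (kap z.1.1 z.1.2.1 ^ m) ^ l = w
  generalize z.1.1 = x
  generalize z.1.2.1 = y
  have e6 : ((w⁻¹ * x * w) ^ m) ^ k = w⁻¹ * (x ^ m) ^ k * w := by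
    have e7 : w⁻¹ * x * w = w⁻¹ * x * (w⁻¹)⁻¹ := by rw [inv_inv]
    rw [e7, conj_pow, conj_zpow, inv_inv]
  rw [e6]
  refine Prod.ext rfl (Prod.ext ?_ rfl)
  change w⁻¹ * y * w * (w⁻¹ * (x ^ m) ^ k * w) = w⁻¹ * (y * (x ^ m) ^ k) * w
  group

variable {P Q : Subgroup V₀} {ι : V₀ →* G}
  {q : P.prod Q →* Equiv.Perm (SOR.Tr G g₁ g₂)}
  {Γ : Type} [Group Γ] {i : Γ →* Equiv.Perm (SOR.Tr G g₁ g₂)} {D' : SOR.Bd Γ}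

theorem act_iff (hq : ∀ p z, (q p z).1 = (ι p.1.1 * z.1.1 * (ι p.1.1)⁻¹,
      ι p.1.1 * z.1.2.1 * (ι p.1.1)⁻¹, ι p.1.1 * z.1.2.2 * (ι p.1.2)⁻¹))
    (z z' : SOR.Tr G g₁ g₂) (p : P.prod Q) (a b c : G) (h : z'.1 = (a, b, c)) :
    z' = q p z ↔ a = ι p.1.1 * z.1.1 * (ι p.1.1)⁻¹ ∧ b = ι p.1.1 * z.1.2.1 * (ι p.1.1)⁻¹ ∧
      c = ι p.1.1 * z.1.2.2 * (ι p.1.2)⁻¹ := by
  constructor
  · intro h1
    rw [h1, hq] at h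
    have h2 := Prod.ext_iff.1 h
    have h3 := Prod.ext_iff.1 h2.2
    exact ⟨h2.1.symm, h3.1.symm, h3.2.symm⟩
  · rintro ⟨h1, h2, h3⟩
    refine Subtype.ext ?_
    rw [h, hq, h1, h2, h3]

theorem img13 (hn : 0 < n) (hq : ∀ p z, (q p z).1 = (ι p.1.1 * z.1.1 * (ι p.1.1)⁻¹,
      ι p.1.1 * z.1.2.1 * (ι p.1.1)⁻¹, ι p.1.1 * z.1.2.2 * (ι p.1.2)⁻¹))
    (hia : i D'.a = D.a) (hia3 : i D'.a3 = D.a3)
    (ha : ∀ z (k : ℤ), ((D.a ^ k) z).1 = (z.1.1, z.1.2.1 * z.1.1 ^ k, z.1.2.2))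
    (ha3 : ∀ z (k : ℤ), ((D.a3 ^ k) z).1 =
      (z.1.1, (g₁⁻¹ * z.1.1) ^ k * z.1.2.1, (g₁⁻¹ * z.1.1) ^ k * z.1.2.2))
    (hM : ∀ x : G, x ^ M = x ^ m) (hmn : ∀ x : G, (x ^ m) ^ n = 1) (z : SOR.Tr G g₁ g₂) :
    tr2 '' (t13 n m ι P Q g₁ z.1.1 z.1.2.1 z.1.2.2) =
      SOR.ty2 n i q (D'.a ^ M) (D'.a3 ^ M) z := by
  have hi : ∀ k l : ℤ, i ((D'.a ^ M) ^ k * (D'.a3 ^ M) ^ l) =
      (D.a ^ M) ^ k * (D.a3 ^ M) ^ l := by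
    intro k l
    rw [map_mul, map_zpow, map_zpow, map_pow, map_pow, hia, hia3]
  ext g
  constructor
  · rintro ⟨⟨i', j, p, q'⟩, ⟨hp, hq', h1, h2, h3⟩, rfl⟩
    refine ⟨(i' : ℕ), (j : ℕ), ⟨(p, q'), ⟨hp, hq'⟩⟩, ?_, ?_⟩
    · unfold tr2
      simp
    · rw [hi, act_iff hq _ _ _ _ _ _ (form13 ha ha3 hM _ _ z)]
      refine ⟨h1, ?_, ?_⟩
      · rw [zpow_natCast, zpow_natCast]
        exact h2
      · rw [zpow_natCast]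
        exact h3
  · rintro ⟨k, l, p, rfl, h⟩
    rw [hi, act_iff hq _ _ _ _ _ _ (form13 ha ha3 hM _ _ z)] at h
    obtain ⟨i', hi1, hi2⟩ := exists_fin hn k
    obtain ⟨j, hj1, hj2⟩ := exists_fin hn l
    refine ⟨(i', j, p.1.1, p.1.2), ⟨p.2.1, p.2.2, h.1, ?_, ?_⟩, ?_⟩
    · rw [← hj2 G _ (hmn _), ← hi2 G _ (hmn _)]
      exact h.2.1
    · rw [← hj2 G _ (hmn _)]
      exact h.2.2
    · unfold tr2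
      rw [hi1, hj1]

theorem img12 (hn : 0 < n) (hq : ∀ p z, (q p z).1 = (ι p.1.1 * z.1.1 * (ι p.1.1)⁻¹,
      ι p.1.1 * z.1.2.1 * (ι p.1.1)⁻¹, ι p.1.1 * z.1.2.2 * (ι p.1.2)⁻¹))
    (hia : i D'.a = D.a) (hiT : i D'.T = D.T)
    (ha : ∀ z (k : ℤ), ((D.a ^ k) z).1 = (z.1.1, z.1.2.1 * z.1.1 ^ k, z.1.2.2))
    (hT : ∀ z (k : ℤ), ((D.T ^ k) z).1 = ((z.1.1 * z.1.2.1 * z.1.1⁻¹ * z.1.2.1⁻¹) ^ (-k) * z.1.1 *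
        (z.1.1 * z.1.2.1 * z.1.1⁻¹ * z.1.2.1⁻¹) ^ k,
      (z.1.1 * z.1.2.1 * z.1.1⁻¹ * z.1.2.1⁻¹) ^ (-k) * z.1.2.1 *
        (z.1.1 * z.1.2.1 * z.1.1⁻¹ * z.1.2.1⁻¹) ^ k, z.1.2.2))
    (hM : ∀ x : G, x ^ M = x ^ m) (hmn : ∀ x : G, (x ^ m) ^ n = 1) (z : SOR.Tr G g₁ g₂) :
    tr2 '' (t12 n m ι P Q z.1.1 z.1.2.1 z.1.2.2) =
      SOR.ty2 n i q (D'.a ^ M) (D'.T ^ M) z := by
  have hi : ∀ k l : ℤ, i ((D'.a ^ M) ^ k * (D'.T ^ M) ^ l) =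
      (D.a ^ M) ^ k * (D.T ^ M) ^ l := by
    intro k l
    rw [map_mul, map_zpow, map_zpow, map_pow, map_pow, hia, hiT]
  ext g
  constructor
  · rintro ⟨⟨i', j, p, q'⟩, ⟨hp, hq', h1, h2, h3⟩, rfl⟩
    refine ⟨(i' : ℕ), (j : ℕ), ⟨(p, q'), ⟨hp, hq'⟩⟩, ?_, ?_⟩
    · unfold tr2
      simp
    · rw [hi, act_iff hq _ _ _ _ _ _ (form12 ha hT hM _ _ z), zpow_natCast, zpow_natCast]
      exact ⟨h1, h2, h3⟩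
  · rintro ⟨k, l, p, rfl, h⟩
    rw [hi, act_iff hq _ _ _ _ _ _ (form12 ha hT hM _ _ z)] at h
    obtain ⟨i', hi1, hi2⟩ := exists_fin hn k
    obtain ⟨j, hj1, hj2⟩ := exists_fin hn l
    rw [hj2 G _ (hmn _), hi2 G _ (hmn _)] at h
    refine ⟨(i', j, p.1.1, p.1.2), ⟨p.2.1, p.2.2, h.1, h.2.1, h.2.2⟩, ?_⟩
    unfold tr2
    rw [hi1, hj1]

theorem imgT (hn : 0 < n) (hq : ∀ p z, (q p z).1 = (ι p.1.1 * z.1.1 * (ι p.1.1)⁻¹,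
      ι p.1.1 * z.1.2.1 * (ι p.1.1)⁻¹, ι p.1.1 * z.1.2.2 * (ι p.1.2)⁻¹))
    (hia : i D'.a = D.a) (hiT : i D'.T = D.T)
    (ha : ∀ z (k : ℤ), ((D.a ^ k) z).1 = (z.1.1, z.1.2.1 * z.1.1 ^ k, z.1.2.2))
    (hT : ∀ z (k : ℤ), ((D.T ^ k) z).1 = ((z.1.1 * z.1.2.1 * z.1.1⁻¹ * z.1.2.1⁻¹) ^ (-k) * z.1.1 *
        (z.1.1 * z.1.2.1 * z.1.1⁻¹ * z.1.2.1⁻¹) ^ k,
      (z.1.1 * z.1.2.1 * z.1.1⁻¹ * z.1.2.1⁻¹) ^ (-k) * z.1.2.1 *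
        (z.1.1 * z.1.2.1 * z.1.1⁻¹ * z.1.2.1⁻¹) ^ k, z.1.2.2))
    (hM : ∀ x : G, x ^ M = x ^ m) (hmn : ∀ x : G, (x ^ m) ^ n = 1) (z : SOR.Tr G g₁ g₂) :
    tr1 '' (tT (t12 n m ι P Q z.1.1 z.1.2.1 z.1.2.2)) =
      SOR.ty1 n i q (D'.T ^ M) z := by
  have h2 := img12 hn hq hia hiT ha hT hM hmn z (P := P) (Q := Q) (i := i) (D' := D')
  ext g
  constructor
  · rintro ⟨u, ⟨s, hs, hs0, rfl⟩, rfl⟩
    have h3 : tr2 s ∈ SOR.ty2 n i q (D'.a ^ M) (D'.T ^ M) z := by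
      rw [← h2]
      exact ⟨s, hs, rfl⟩
    obtain ⟨k, l, p, he, h4⟩ := h3
    have h5 := Prod.ext_iff.1 he
    have h6 := Prod.ext_iff.1 h5.2
    have hk : (k : ZMod n) = 0 := by
      have h7 : Multiplicative.ofAdd ((s.1 : ℕ) : ZMod n) = Multiplicative.ofAdd (k : ZMod n) :=
        h5.1
      rw [hs0] at h7
      have h8 := Multiplicative.ofAdd.injective h7
      rw [← h8, Nat.cast_zero]
    refine ⟨l, p, ?_, ?_⟩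
    · exact Prod.ext h6.1 h6.2
    · rw [map_mul] at h4
      have h9 : i ((D'.a ^ M) ^ k) = 1 := by
        obtain ⟨w, hw⟩ := (ZMod.intCast_zmod_eq_zero_iff_dvd k n).1 hk
        rw [hw, map_zpow, map_pow, hia]
        refine Equiv.ext fun z' => Subtype.ext ?_
        have e1 : (D.a ^ M) ^ ((n : ℤ) * w) = D.a ^ ((M : ℤ) * ((n : ℤ) * w)) := by
          rw [zpow_mul D.a, zpow_natCast]
        rw [e1, ha, zpow_mul, zpow_natCast, hM, zpow_mul, zpow_natCast, hmn, one_zpow, mul_one]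
        rfl
      rw [h9, one_mul] at h4
      exact h4
  · rintro ⟨l, p, rfl, h⟩
    have h3 : ((Multiplicative.ofAdd ((0 : ℤ) : ZMod n), Multiplicative.ofAdd (l : ZMod n),
        (p : V₀ × V₀)) : SOR.L2 n (V₀ × V₀)) ∈ SOR.ty2 n i q (D'.a ^ M) (D'.T ^ M) z :=
      ⟨0, l, p, rfl, by rw [zpow_zero, one_mul]; exact h⟩
    rw [← h2] at h3
    obtain ⟨s, hs, hse⟩ := h3
    have h5 := Prod.ext_iff.1 hse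
    have h6 := Prod.ext_iff.1 h5.2
    refine ⟨s.2, ⟨s, hs, ?_, rfl⟩, ?_⟩
    · rw [← fin_zero]
      have h7 : Multiplicative.ofAdd ((s.1 : ℕ) : ZMod n) =
        Multiplicative.ofAdd ((0 : ℤ) : ZMod n) := h5.1
      have h8 := Multiplicative.ofAdd.injective h7
      rw [h8, Int.cast_zero]
    · exact Prod.ext h6.1 h6.2

theorem free13 (hn : 0 < n) (hq : ∀ p z, (q p z).1 = (ι p.1.1 * z.1.1 * (ι p.1.1)⁻¹,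
      ι p.1.1 * z.1.2.1 * (ι p.1.1)⁻¹, ι p.1.1 * z.1.2.2 * (ι p.1.2)⁻¹))
    (z : SOR.Tr G g₁ g₂) :
    Fre (t13 n m ι P Q g₁ z.1.1 z.1.2.1 z.1.2.2) ↔ z ∈ SOR.Gd q := by
  constructor
  · intro h p hp
    have h1 := (act_iff hq z z p _ _ _ rfl).1 hp.symm
    have h2 := h (⟨0, hn⟩, ⟨0, hn⟩, p.1.1, p.1.2) ⟨p.2.1, p.2.2, h1.1, by
      change ((g₁⁻¹ * z.1.1) ^ m) ^ 0 * z.1.2.1 * (z.1.1 ^ m) ^ 0 = _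
      rw [pow_zero, pow_zero, one_mul, mul_one]
      exact h1.2.1, by
      change ((g₁⁻¹ * z.1.1) ^ m) ^ 0 * z.1.2.2 = _
      rw [pow_zero, one_mul]
      exact h1.2.2⟩ rfl rfl
    exact Subtype.ext (Prod.ext h2.1 h2.2)
  · rintro h ⟨i', j, p, q'⟩ ⟨hp, hq', h1, h2, h3⟩ hi0 hj0
    simp only at hi0 hj0 h1 h2 h3 hp hq'
    rw [hi0, hj0, pow_zero, pow_zero, one_mul, mul_one] at h2
    rw [hj0, pow_zero, one_mul] at h3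
    have h4 := h ⟨(p, q'), ⟨hp, hq'⟩⟩ ((act_iff hq z z ⟨(p, q'), ⟨hp, hq'⟩⟩ _ _ _ rfl).2
      ⟨h1, h2, h3⟩).symm
    have h5 := congrArg Subtype.val h4
    have h6 := Prod.ext_iff.1 h5
    exact ⟨h6.1, h6.2⟩

theorem free12 (hn : 0 < n) (hq : ∀ p z, (q p z).1 = (ι p.1.1 * z.1.1 * (ι p.1.1)⁻¹,
      ι p.1.1 * z.1.2.1 * (ι p.1.1)⁻¹, ι p.1.1 * z.1.2.2 * (ι p.1.2)⁻¹))
    (z : SOR.Tr G g₁ g₂) :
    Fre (t12 n m ι P Q z.1.1 z.1.2.1 z.1.2.2) ↔ z ∈ SOR.Gd q := by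
  constructor
  · intro h p hp
    have h1 := (act_iff hq z z p _ _ _ rfl).1 hp.symm
    have h2 := h (⟨0, hn⟩, ⟨0, hn⟩, p.1.1, p.1.2) ⟨p.2.1, p.2.2, by
      change ((kap z.1.1 z.1.2.1 ^ m) ^ 0)⁻¹ * z.1.1 * (kap z.1.1 z.1.2.1 ^ m) ^ 0 = _
      rw [pow_zero, inv_one, one_mul, mul_one]
      exact h1.1, by
      change ((kap z.1.1 z.1.2.1 ^ m) ^ 0)⁻¹ * (z.1.2.1 * (z.1.1 ^ m) ^ 0) *
        (kap z.1.1 z.1.2.1 ^ m) ^ 0 = _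
      rw [pow_zero, pow_zero, inv_one, one_mul, mul_one, mul_one]
      exact h1.2.1, h1.2.2⟩ rfl rfl
    exact Subtype.ext (Prod.ext h2.1 h2.2)
  · rintro h ⟨i', j, p, q'⟩ ⟨hp, hq', h1, h2, h3⟩ hi0 hj0
    simp only at hi0 hj0 h1 h2 h3 hp hq'
    rw [hj0, pow_zero, inv_one, one_mul, mul_one] at h1
    rw [hi0, hj0, pow_zero, pow_zero, inv_one, one_mul, mul_one, mul_one] at h2
    have h4 := h ⟨(p, q'), ⟨hp, hq'⟩⟩ ((act_iff hq z z ⟨(p, q'), ⟨hp, hq'⟩⟩ _ _ _ rfl).2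
      ⟨h1, h2, h3⟩).symm
    have h5 := congrArg Subtype.val h4
    have h6 := Prod.ext_iff.1 h5
    exact ⟨h6.1, h6.2⟩

end form

end Pool.Agent.PP.SO.H70
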